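import Pool.Agent.Work.MP_a6e60d_ag.Num.Split

/-!
MP_a6e60d_ag, abstract part of Theorem B, 3: generation of triangulated categories and
orthogonality, also along a triangulated functor; division retracts.
-/

open CategoryTheory Category Limits Pretriangulated Module ZeroObject

set_option linter.unusedSectionVars false

attribute [-instance] CategoryTheory.catToReflQuiver

namespace OrlNum

universe a w v u v' u'

section Gen

variable {T : Type u} [Category.{v} T] [Preadditive T] [HasZeroObject T] [HasShift T ℤ]
  [∀ n : ℤ, (shiftFunctor T n).Additive] [Pretriangulated T]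

theorem orth_mid {N : T} (t : Triangle T) (ht : t ∈ distTriang T) (h1 : Orth t.obj₁ N)
    (h3 : Orth t.obj₃ N) : Orth t.obj₂ N := by
  intro m f
  have ht' := Triangle.shift_distinguished t ht m
  obtain ⟨g, hg⟩ := Triangle.yoneda_exact₂ _ ht' f (h1 m _)
  rw [hg]
  have h4 : g = 0 := h3 m g
  rw [h4]
  exact comp_zero

theorem orth_shift {X N : T} (h : Orth X N) (n : ℤ) : Orth (X⟦n⟧) N := by
  intro m f
  rw [← cancel_epi ((shiftFunctorAdd T n m).hom.app X), comp_zero]
  exact h (n + m) _

theorem isZero_of_orth_self {N : T} (h : Orth N N) : IsZero N := by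
  rw [IsZero.iff_id_eq_zero]
  have h1 := h 0 ((shiftFunctorZero T ℤ).hom.app N)
  have h2 : (shiftFunctorZero T ℤ).inv.app N ≫ (shiftFunctorZero T ℤ).hom.app N = 𝟙 N := by
    simp
  rw [← h2, h1, comp_zero]

/-- the objects left orthogonal to N in all degrees -/
def orthProp (N : T) : ObjectProperty T := fun X => Orth X N

instance (N : T) : (orthProp N).IsStableUnderRetracts where
  of_retract r h := Orth.retract h r (Retract.refl N)

instance (N : T) : (orthProp N).IsClosedUnderIsomorphisms where
  of_iso e h := orth_of_iso e h

instance (N : T) : (orthProp N).IsTriangulated where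
  exists_zero := ⟨0, isZero_zero T, orth_of_isZero (isZero_zero T) N⟩
  isStableUnderShiftBy n := ⟨fun _ hX => orth_shift hX n⟩
  toIsTriangulatedClosed₂ := ObjectProperty.IsTriangulatedClosed₂.mk' fun t ht h1 h3 =>
    orth_mid t ht h1 h3

/-- the collection generates T as a triangulated category closed under direct summands -/
def ThickGen {ι : Type*} (E : ι → T) : Prop :=
  ∀ Q : ObjectProperty T, Q.IsTriangulated → Q.IsStableUnderRetracts → (∀ i, Q (E i)) → ∀ X, Q X

theorem ThickGen.isZero {ι : Type*} {E : ι → T} (h : ThickGen E) {N : T}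
    (hN : ∀ i, Orth (E i) N) : IsZero N :=
  isZero_of_orth_self (h (orthProp N) inferInstance inferInstance hN N)

end Gen

section Func

variable {T : Type u} [Category.{v} T] [Preadditive T] [HasZeroObject T] [HasShift T ℤ]
  [∀ n : ℤ, (shiftFunctor T n).Additive] [Pretriangulated T]
variable {S : Type u'} [Category.{v'} S] [Preadditive S] [HasZeroObject S] [HasShift S ℤ]
  [∀ n : ℤ, (shiftFunctor S n).Additive] [Pretriangulated S]
variable (P : T ⥤ S) [P.CommShift ℤ] [P.IsTriangulated]

/-- the objects M such that P M is left orthogonal to N -/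
def orthPropMap (N : S) : ObjectProperty T := fun X => Orth (P.obj X) N

instance (N : S) : (orthPropMap P N).IsStableUnderRetracts where
  of_retract r h := Orth.retract h (r.map P) (Retract.refl N)

instance (N : S) : (orthPropMap P N).IsClosedUnderIsomorphisms where
  of_iso e h := orth_of_iso (P.mapIso e) h

instance (N : S) : (orthPropMap P N).IsTriangulated where
  exists_zero := ⟨0, isZero_zero T, orth_of_isZero
    (by have := Functor.IsTriangulated.instPreservesZeroMorphisms (F := P)
        exact P.map_isZero (isZero_zero T)) N⟩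
  isStableUnderShiftBy n := ⟨fun X hX =>
    orth_of_iso ((P.commShiftIso n).app X).symm (orth_shift hX n)⟩
  toIsTriangulatedClosed₂ := ObjectProperty.IsTriangulatedClosed₂.mk' fun t ht h1 h3 =>
    orth_mid _ (P.map_distinguished t ht) h1 h3

theorem ThickGen.isZero_map {ι : Type*} {E : ι → T} (h : ThickGen E) {N : S}
    (hN : ∀ i, Orth (P.obj (E i)) N) (hr : ∃ M : T, Nonempty (Retract N (P.obj M))) :
    IsZero N := by
  obtain ⟨M, ⟨r⟩⟩ := hr
  have h1 : Orth (P.obj M) N := h (orthPropMap P N) inferInstance inferInstance hN M
  exact isZero_of_orth_self (h1.retract r (Retract.refl N))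

end Func

end OrlNum
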