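import Mathlib

/-!
MP_a6e60d_ag, abstract part of Theorem B, 1: additive functions on triangulated categories,
dimensions of Hom spaces, Euler numbers.
-/

open CategoryTheory Category Limits Pretriangulated Module ZeroObject

set_option linter.unusedSectionVars false

attribute [-instance] CategoryTheory.catToReflQuiver

namespace OrlNum

universe a w v u

section Additive

variable {T : Type u} [Category.{v} T] [Preadditive T] [HasZeroObject T] [HasShift T ℤ]
  [∀ n : ℤ, (shiftFunctor T n).Additive] [Pretriangulated T]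
variable {A : Type*} [AddCommGroup A]

/-- an additive function on a triangulated category -/
def IsAdd (g : T → A) : Prop := ∀ t ∈ distTriang T, g t.obj₂ = g t.obj₁ + g t.obj₃

variable {g : T → A}

theorem IsAdd.zero (hg : IsAdd g) : g 0 = 0 := by
  have h := hg _ (contractible_distinguished (0 : T))
  have h' : g (0 : T) = g (0 : T) + g (0 : T) := h
  simpa using h'

theorem IsAdd.iso (hg : IsAdd g) {X Y : T} (e : X ≅ Y) : g X = g Y := by
  have h : Triangle.mk e.hom (0 : Y ⟶ (0 : T)) 0 ∈ distTriang T := by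
    refine isomorphic_distinguished _ (contractible_distinguished X) _ ?_
    refine Triangle.isoMk _ _ (Iso.refl _) e.symm (Iso.refl _) ?_ ?_ ?_
    · change e.hom ≫ e.inv = 𝟙 X ≫ 𝟙 X
      simp
    · change 0 ≫ 𝟙 _ = e.inv ≫ 0
      simp
    · change 0 ≫ (𝟙 X)⟦(1 : ℤ)⟧' = 𝟙 _ ≫ 0
      simp
  have h1 := hg _ h
  have h2 : g Y = g X + g (0 : T) := h1
  rw [h2, hg.zero, add_zero]

theorem IsAdd.of_isZero (hg : IsAdd g) {X : T} (hX : IsZero X) : g X = 0 := by
  rw [hg.iso (hX.iso (isZero_zero T)), hg.zero]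

theorem IsAdd.shift_one (hg : IsAdd g) (X : T) : g (X⟦(1 : ℤ)⟧) = - g X := by
  have h := hg _ (rot_of_distTriang _ (contractible_distinguished X))
  have h' : g (0 : T) = g X + g (X⟦(1 : ℤ)⟧) := h
  rw [hg.zero] at h'
  exact (neg_eq_of_add_eq_zero_right h'.symm).symm

theorem IsAdd.shift_succ (hg : IsAdd g) (X : T) (n : ℤ) : g (X⟦n + 1⟧) = - g (X⟦n⟧) := by
  rw [hg.iso ((shiftFunctorAdd T n 1).app X)]
  exact hg.shift_one _

theorem IsAdd.shift (hg : IsAdd g) (X : T) (n : ℤ) : ∃ c : ℤ, g (X⟦n⟧) = c • g X := by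
  induction n using Int.induction_on with
  | zero => exact ⟨1, by rw [hg.iso ((shiftFunctorZero T ℤ).app X), one_smul]; rfl⟩
  | succ i hi =>
    obtain ⟨c, hc⟩ := hi
    exact ⟨-c, by rw [hg.shift_succ, hc, neg_smul]⟩
  | pred i hi =>
    obtain ⟨c, hc⟩ := hi
    refine ⟨-c, ?_⟩
    have := hg.shift_succ X (-(i : ℤ) - 1)
    rw [sub_add_cancel, hc] at this
    rw [neg_smul, this, neg_neg]

end Additive

section Fin

variable (k : Type w) [Field k] (T : Type u) [Category.{v} T] [Preadditive T] [HasZeroObject T]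
  [HasShift T ℤ] [∀ n : ℤ, (shiftFunctor T n).Additive] [Pretriangulated T] [Linear k T]

/-- all total Hom spaces are finite dimensional -/
class HomFin : Prop where
  fin : ∀ X Y : T, Module.Finite k (X ⟶ Y)
  bdd : ∀ X Y : T, ∃ N : ℕ, ∀ m : ℤ, N < m.natAbs → ∀ f : X⟦m⟧ ⟶ Y, f = 0

attribute [instance] HomFin.fin

end Fin

section Elim

variable (k : Type w) [Field k] {T : Type u} [Category.{v} T] [Preadditive T] [HasZeroObject T]
  [HasShift T ℤ] [∀ n : ℤ, (shiftFunctor T n).Additive] [Pretriangulated T] [Linear k T]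
  [HomFin k T]

/-- Hom(X[m], Y) = 0 for all m -/
def Orth (X Y : T) : Prop := ∀ (m : ℤ) (f : X⟦m⟧ ⟶ Y), f = 0

/-- the dimension of the total Hom space -/
noncomputable def tot (X Y : T) : ℕ := ∑ᶠ m : ℤ, finrank k (X⟦m⟧ ⟶ Y)

theorem supp_fin (X Y : T) : (Function.support fun m : ℤ => finrank k (X⟦m⟧ ⟶ Y)).Finite := by
  obtain ⟨N, hN⟩ := HomFin.bdd k X Y
  refine (Set.finite_Icc (-(N : ℤ)) N).subset fun m hm => ?_
  by_contra h
  apply hm
  have h1 : N < m.natAbs := by
    simp only [Set.mem_Icc, not_and_or, not_le] at h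
    omega
  have : Subsingleton (X⟦m⟧ ⟶ Y) := ⟨fun a b => by rw [hN m h1 a, hN m h1 b]⟩
  exact finrank_zero_of_subsingleton

theorem tot_lt {X Y Y' : T} (h : ∀ m : ℤ, finrank k (X⟦m⟧ ⟶ Y') ≤ finrank k (X⟦m⟧ ⟶ Y)) (i : ℤ)
    (hi : finrank k (X⟦i⟧ ⟶ Y') < finrank k (X⟦i⟧ ⟶ Y)) : tot k X Y' < tot k X Y := by
  classical
  have h1 := supp_fin k X Y
  have h2 : (Function.support fun m : ℤ => finrank k (X⟦m⟧ ⟶ Y')) ⊆ h1.toFinset := by
    intro m hm
    simp only [Function.mem_support, Set.Finite.coe_toFinset] at hm ⊢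
    have := h m
    omega
  have h3 : (Function.support fun m : ℤ => finrank k (X⟦m⟧ ⟶ Y)) ⊆ h1.toFinset := by simp
  unfold tot
  rw [finsum_eq_sum_of_support_subset _ h2, finsum_eq_sum_of_support_subset _ h3]
  refine Finset.sum_lt_sum (fun m _ => h m) ⟨i, ?_, hi⟩
  simp only [Set.Finite.mem_toFinset, Function.mem_support]
  omega

/-- division objects: nonzero endomorphisms are isomorphisms and all shifted endomorphisms
vanish -/
structure Divn (D : T) : Prop where
  iso : ∀ f : D ⟶ D, f ≠ 0 → IsIso f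
  shift : ∀ m : ℤ, m ≠ 0 → ∀ f : D⟦m⟧ ⟶ D, f = 0

variable {k}


theorem eq_zero_of_shift {X Y : T} {a b : ℤ} (h : ∀ f : X⟦a - b⟧ ⟶ Y, f = 0)
    (f : X⟦a⟧ ⟶ Y⟦b⟧) : f = 0 := by
  have h1 : (shiftFunctorAdd' T a (-b) (a - b) (by ring)).hom.app X ≫ f⟦-b⟧' ≫
      (shiftFunctorCompIsoId T b (-b) (by ring)).hom.app Y = 0 := h _
  have h2 : f⟦-b⟧' = 0 := by
    rw [← cancel_epi ((shiftFunctorAdd' T a (-b) (a - b) (by ring)).hom.app X),
      ← cancel_mono ((shiftFunctorCompIsoId T b (-b) (by ring)).hom.app Y)]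
    simpa using h1
  exact (shiftFunctor T (-b)).map_eq_zero_iff.mp h2


theorem Orth.shift {X Y : T} (h : Orth X Y) {a b : ℤ} (f : X⟦a⟧ ⟶ Y⟦b⟧) : f = 0 :=
  eq_zero_of_shift (h _) f

theorem Divn.shift' {D : T} (hD : Divn D) {a b : ℤ} (h : a ≠ b) (f : D⟦a⟧ ⟶ D⟦b⟧) : f = 0 :=
  eq_zero_of_shift (hD.shift _ (sub_ne_zero.mpr h)) f

theorem Divn.iso' {D : T} (hD : Divn D) {a : ℤ} (f : D⟦a⟧ ⟶ D⟦a⟧) (hf : f ≠ 0) : IsIso f := by
  obtain ⟨f', rfl⟩ := (shiftFunctor T a).map_surjective f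
  have h : f' ≠ 0 := by
    rintro rfl
    exact hf ((shiftFunctor T a).map_zero _ _)
  have := hD.iso f' h
  infer_instance

variable (k)
include k

/-- One step of the elimination of D: a nonzero map D[i] -> N, N' its cone. -/
theorem elim_step {D : T} (hD : Divn D) {N : T} (i : ℤ) (f : D⟦i⟧ ⟶ N) (hf : f ≠ 0) :
    ∃ N' : T, tot k D N' < tot k D N ∧
      (∀ {A : Type a} [AddCommGroup A] (g : T → A), IsAdd g → ∃ c : ℤ, g N = c • g D + g N') ∧
      ∀ Z : T, Orth Z D → Orth Z N → Orth Z N' := by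
  obtain ⟨N', q, r, ht⟩ := distinguished_cocone_triangle f
  refine ⟨N', ?_, ?_, ?_⟩
  · -- the map Hom(D[m], N) -> Hom(D[m], N') is surjective
    have hsurj : ∀ m : ℤ, ∀ a : D⟦m⟧ ⟶ N', ∃ b : D⟦m⟧ ⟶ N, b ≫ q = a := by
      intro m a
      have h0 : a ≫ r = 0 := by
        by_contra hne
        have hm : m = i + 1 := by
          by_contra hm
          apply hne
          have h1 : (a ≫ r) ≫ (shiftFunctorAdd T i 1).inv.app D = 0 := hD.shift' hm _
          rw [← cancel_mono ((shiftFunctorAdd T i 1).inv.app D), h1, zero_comp]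
        subst hm
        have h2 : (a ≫ r) ≫ (shiftFunctorAdd T i 1).inv.app D ≠ 0 := by
          intro h
          apply hne
          rw [← cancel_mono ((shiftFunctorAdd T i 1).inv.app D), h, zero_comp]
        have h3 := hD.iso' _ h2
        have h4 : IsIso (a ≫ r) :=
          IsIso.of_isIso_comp_right (a ≫ r) ((shiftFunctorAdd T i 1).inv.app D)
        have h5 : r ≫ f⟦(1 : ℤ)⟧' = 0 := comp_distTriang_mor_zero₃₁ _ ht
        have h6 : f⟦(1 : ℤ)⟧' = 0 := by
          rw [← cancel_epi (a ≫ r), assoc, h5, comp_zero, comp_zero]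
        exact hf ((shiftFunctor T (1 : ℤ)).map_eq_zero_iff.mp h6)
      obtain ⟨b, hb⟩ := Triangle.coyoneda_exact₃ _ ht a h0
      exact ⟨b, hb.symm⟩
    refine tot_lt k (fun m => ?_) i ?_
    · exact (Linear.rightComp k (D⟦m⟧) q).finrank_le_finrank_of_surjective (hsurj m)
    · by_contra hle
      rw [not_lt] at hle
      have h1 := LinearMap.range_eq_top.mpr
        (show Function.Surjective (Linear.rightComp k (D⟦i⟧) q) from hsurj i)
      have h2 := (Linear.rightComp k (D⟦i⟧) q).finrank_range_add_finrank_ker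
      rw [h1, finrank_top] at h2
      have h3 : finrank k (LinearMap.ker (Linear.rightComp k (D⟦i⟧) q)) = 0 := by omega
      rw [Submodule.finrank_eq_zero] at h3
      have h4 : f ∈ LinearMap.ker (Linear.rightComp k (D⟦i⟧) q) := by
        rw [LinearMap.mem_ker]
        exact comp_distTriang_mor_zero₁₂ _ ht
      rw [h3, Submodule.mem_bot] at h4
      exact hf h4
  · intro A _ g hg
    obtain ⟨c, hc⟩ := hg.shift D i
    exact ⟨c, by rw [← hc]; exact hg _ ht⟩
  · intro Z h1 h2 m a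
    have h3 : a ≫ r = 0 := by
      have h4 : (a ≫ r) ≫ (shiftFunctorAdd T i 1).inv.app D = 0 := h1.shift _
      rw [← cancel_mono ((shiftFunctorAdd T i 1).inv.app D), h4, zero_comp]
    obtain ⟨b, hb⟩ := Triangle.coyoneda_exact₃ _ ht a h3
    rw [hb, h2 m b]
    exact zero_comp

/-- The elimination of D. -/
theorem elim {D : T} (hD : Divn D) (N : T) :
    ∃ N' : T, Orth D N' ∧
      (∀ {A : Type a} [AddCommGroup A] (g : T → A), IsAdd g → ∃ c : ℤ, g N = c • g D + g N') ∧
      ∀ Z : T, Orth Z D → Orth Z N → Orth Z N' := by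
  induction h : tot k D N using Nat.strong_induction_on generalizing N with
  | _ d ih =>
    by_cases hN : Orth D N
    · exact ⟨N, hN, fun g _ => ⟨0, by simp⟩, fun Z _ h => h⟩
    · simp only [Orth, not_forall] at hN
      obtain ⟨i, f, hf⟩ := hN
      obtain ⟨N₁, h1, h2, h3⟩ := elim_step k hD i f hf
      obtain ⟨N', h4, h5, h6⟩ := ih _ (h ▸ h1) N₁ rfl
      refine ⟨N', h4, fun g hg => ?_, fun Z hZ hZN => h6 Z hZ (h3 Z hZ hZN)⟩
      obtain ⟨c, hc⟩ := h2 g hg
      obtain ⟨c', hc'⟩ := h5 g hg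
      exact ⟨c + c', by rw [hc, hc', add_smul, add_assoc]⟩

/-- The elimination of a semiorthogonal list of division objects. -/
theorem elim_list (l : List T) (hl : ∀ D ∈ l, Divn D) (hp : l.Pairwise Orth) (N : T) :
    ∃ N' : T, (∀ D ∈ l, Orth D N') ∧
      (∀ {A : Type a} [AddCommGroup A] (g : T → A), IsAdd g →
        ∃ x ∈ Submodule.span ℤ (g '' {D | D ∈ l}), g N = x + g N') ∧
      ∀ Z : T, (∀ D ∈ l, Orth Z D) → Orth Z N → Orth Z N' := by
  induction l generalizing N with
  | nil => exact ⟨N, by simp, fun g _ => ⟨0, Submodule.zero_mem _, by simp⟩, fun Z _ h => h⟩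
  | cons X l ih =>
    rw [List.pairwise_cons] at hp
    obtain ⟨N₁, h1, h2, h3⟩ := elim k (hl X (by simp)) N
    obtain ⟨N', h4, h5, h6⟩ := ih (fun D hD => hl D (by simp [hD])) hp.2 N₁
    refine ⟨N', ?_, fun g hg => ?_, fun Z hZ hZN => ?_⟩
    · intro D hD
      rcases List.mem_cons.mp hD with rfl | hD
      · exact h6 _ hp.1 h1
      · exact h4 D hD
    · obtain ⟨c, hc⟩ := h2 g hg
      obtain ⟨x, hx, hx'⟩ := h5 g hg
      refine ⟨c • g X + x, ?_, by rw [hc, hx', add_assoc]⟩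
      refine Submodule.add_mem _ (Submodule.smul_mem _ _ (Submodule.subset_span
        ⟨X, by simp, rfl⟩)) ?_
      exact Submodule.span_mono (Set.image_mono fun D (hD : D ∈ l) => by simp [hD]) hx
    · exact h6 Z (fun D hD => hZ D (by simp [hD])) (h3 Z (hZ X (by simp)) hZN)

/-- If a semiorthogonal list of division objects generates, additive functions have values in the
span of their values on the list. -/
theorem mem_span_of_list (l : List T) (hl : ∀ D ∈ l, Divn D) (hp : l.Pairwise Orth)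
    (hgen : ∀ N : T, (∀ D ∈ l, Orth D N) → IsZero N) {A : Type a} [AddCommGroup A] (g : T → A)
    (hg : IsAdd g) (N : T) : g N ∈ Submodule.span ℤ (g '' {D | D ∈ l}) := by
  obtain ⟨N', h1, h2, -⟩ := elim_list k l hl hp N
  obtain ⟨x, hx, h3⟩ := h2 g hg
  rw [h3, hg.of_isZero (hgen N' h1), add_zero]
  exact hx

end Elim

end OrlNum
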