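import Pool.Agent.Work.MP_a6e60d_ag.Num.Gen

/-!
MP_a6e60d_ag, abstract part of Theorem B, 4: the division summands of a semi-exceptional
collection form a complete list; the list is stable under autoequivalences that fix the members
of the collection.
-/

open CategoryTheory Category Limits Pretriangulated Module ZeroObject

set_option linter.unusedSectionVars false

attribute [-instance] CategoryTheory.catToReflQuiver

namespace OrlNum

universe a w v u v' u'

section Class

variable {T : Type u} [Category.{v} T] [Preadditive T] [HasZeroObject T] [HasShift T ℤ]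
  [∀ n : ℤ, (shiftFunctor T n).Additive]

theorem not_orth_of_retract {E X : T} (h : ¬ IsZero X) (r : Retract X E) : ¬ Orth E X := by
  intro ho
  apply h
  rw [IsZero.iff_id_eq_zero]
  have h1 := ho.retract r (Retract.refl X)
  have h2 := h1 0 ((shiftFunctorZero T ℤ).hom.app X)
  have h3 : (shiftFunctorZero T ℤ).inv.app X ≫ (shiftFunctorZero T ℤ).hom.app X = 𝟙 X := by
    simp
  rw [← h3, h2, comp_zero]

/-- every nonzero division retract of E is isomorphic to a member of the list -/
theorem exists_iso_mem {E X : T} (l : List T) (hr : Reg E) (hs : NoShift E)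
    (hl : ∀ D ∈ l, Divn D ∧ Nonempty (Retract D E))
    (hd : ∀ N : T, (∀ D ∈ l, Orth D N) → Orth E N) (hX : ¬ IsZero X) (hXd : Divn X)
    (r : Retract X E) : ∃ D ∈ l, Nonempty (X ≅ D) := by
  by_contra hcon
  push Not at hcon
  refine not_orth_of_retract hX r (hd X fun D hD => ?_)
  obtain ⟨h1, ⟨q⟩⟩ := hl D hD
  refine (iso_or_orth hr hs q r h1.iso hXd.iso).resolve_left ?_
  rintro ⟨e⟩
  exact (hcon D hD).false e.symm

end Class

section Main

variable (k : Type w) [Field k] {T : Type u} [Category.{v} T] [Preadditive T] [HasZeroObject T]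
  [HasShift T ℤ] [∀ n : ℤ, (shiftFunctor T n).Additive] [Pretriangulated T] [Linear k T]
  [HomFin k T] [IsIdempotentComplete T]

include k

/-- The refinement of a semi-exceptional collection (in reversed order), with completeness. -/
theorem exists_complete_list (Es : List T) (hr : ∀ E ∈ Es, Reg E) (hs : ∀ E ∈ Es, NoShift E)
    (hp : Es.Pairwise Orth) :
    ∃ l : List T, (∀ D ∈ l, Divn D ∧ ¬ IsZero D ∧ ∃ E ∈ Es, Nonempty (Retract D E)) ∧
      l.Pairwise Orth ∧ (∀ N : T, (∀ D ∈ l, Orth D N) → ∀ E ∈ Es, Orth E N) ∧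
      ∀ X : T, ¬ IsZero X → Divn X → (∃ E ∈ Es, Nonempty (Retract X E)) →
        ∃ D ∈ l, Nonempty (X ≅ D) := by
  induction Es with
  | nil => exact ⟨[], by simp, List.Pairwise.nil, by simp, by simp⟩
  | cons E Es ih =>
    rw [List.pairwise_cons] at hp
    obtain ⟨l, h1, h2, h3, h4⟩ := ih (fun E hE => hr E (by simp [hE]))
      (fun E hE => hs E (by simp [hE])) hp.2
    obtain ⟨l', h1', h2', h3'⟩ := exists_list k E (hr E (by simp)) (hs E (by simp))
    refine ⟨l' ++ l, ?_, ?_, ?_, ?_⟩
    · intro D hD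
      rcases List.mem_append.mp hD with hD | hD
      · obtain ⟨h4, h5, h6⟩ := h1' D hD
        exact ⟨h4, h5, E, by simp, h6⟩
      · obtain ⟨h4, h5, E', h6, h7⟩ := h1 D hD
        exact ⟨h4, h5, E', by simp [h6], h7⟩
    · rw [List.pairwise_append]
      refine ⟨h2'.imp fun h => h.1, h2, fun X hX Y hY => ?_⟩
      obtain ⟨-, -, ⟨r⟩⟩ := h1' X hX
      obtain ⟨-, -, E', hE', ⟨r'⟩⟩ := h1 Y hY
      exact (hp.1 E' hE').retract r r'
    · intro N hN E' hE'
      rcases List.mem_cons.mp hE' with rfl | hE'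
      · exact h3' N fun D hD => hN D (by simp [hD])
      · exact h3 N (fun D hD => hN D (by simp [hD])) E' hE'
    · rintro X hX hXd ⟨E', hE', ⟨r⟩⟩
      rcases List.mem_cons.mp hE' with rfl | hE'
      · obtain ⟨D, hD, e⟩ := exists_iso_mem l' (hr E' (by simp)) (hs E' (by simp))
          (fun D hD => ⟨(h1' D hD).1, (h1' D hD).2.2⟩) h3' hX hXd r
        exact ⟨D, by simp [hD], e⟩
      · obtain ⟨D, hD, e⟩ := h4 X hX hXd ⟨E', hE', ⟨r⟩⟩
        exact ⟨D, by simp [hD], e⟩

/-- The division objects of a full semi-exceptional collection, the conditions are written as in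
the definition: Hom(E_i, E_i[m]) = 0 for m ≠ 0, End(E_i) semisimple, Hom(E_j, E_i[m]) = 0 for
i < j. -/
theorem exists_division_list {n : ℕ} (E : Fin n → T)
    (h1 : ∀ i (m : ℤ), m ≠ 0 → ∀ f : E i ⟶ (E i)⟦m⟧, f = 0)
    (h2 : ∀ i, IsSemisimpleRing (End (E i)))
    (h3 : ∀ i j, i < j → ∀ (m : ℤ) (f : E j ⟶ (E i)⟦m⟧), f = 0) :
    ∃ l : List T, (∀ D ∈ l, Divn D ∧ ¬ IsZero D ∧ ∃ i, Nonempty (Retract D (E i))) ∧
      l.Pairwise Orth ∧ (∀ N : T, (∀ D ∈ l, Orth D N) → ∀ i, Orth (E i) N) ∧
      ∀ X : T, ¬ IsZero X → Divn X → (∃ i, Nonempty (Retract X (E i))) →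
        ∃ D ∈ l, Nonempty (X ≅ D) := by
  have hmem : ∀ X : T, X ∈ (List.ofFn E).reverse ↔ ∃ i, E i = X := by
    intro X
    simp [List.mem_ofFn]
  obtain ⟨l, h4, h5, h6, h7⟩ := exists_complete_list k (List.ofFn E).reverse
    (fun X hX => by
      obtain ⟨i, rfl⟩ := (hmem X).mp hX
      exact reg_of_semisimple (h2 i))
    (fun X hX => by
      obtain ⟨i, rfl⟩ := (hmem X).mp hX
      exact noShift_of_target (h1 i))
    (by
      rw [List.pairwise_reverse, List.pairwise_ofFn]
      exact fun i j hij => orth_of_target (h3 i j hij))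
  refine ⟨l, fun D hD => ?_, h5, fun N hN i => h6 N hN _ ((hmem _).mpr ⟨i, rfl⟩), ?_⟩
  · obtain ⟨h8, h9, X, hX, h10⟩ := h4 D hD
    obtain ⟨i, rfl⟩ := (hmem X).mp hX
    exact ⟨h8, h9, i, h10⟩
  · rintro X hX hXd ⟨i, hi⟩
    exact h7 X hX hXd ⟨_, (hmem _).mpr ⟨i, rfl⟩, hi⟩

end Main

section Auto

variable {T : Type u} [Category.{v} T] [Preadditive T] [HasShift T ℤ]
variable {S : Type u'} [Category.{v'} S] [Preadditive S] [HasShift S ℤ]

/-- a fully faithful functor commuting with the shift preserves division objects -/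
theorem Divn.map (F : T ⥤ S) [F.Full] [F.Faithful] [F.Additive] [F.CommShift ℤ] {D : T}
    (hD : Divn D) : Divn (F.obj D) where
  iso f hf := by
    obtain ⟨g, rfl⟩ := F.map_surjective f
    have : g ≠ 0 := by
      rintro rfl
      exact hf (F.map_zero _ _)
    have := hD.iso g this
    infer_instance
  shift m hm f := by
    obtain ⟨g, hg⟩ := F.map_surjective ((F.commShiftIso m).hom.app D ≫ f)
    have h1 : g = 0 := hD.shift m hm g
    rw [h1] at hg
    have h2 : (F.commShiftIso m).hom.app D ≫ f = 0 := by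
      rw [← hg]
      exact F.map_zero _ _
    rw [← cancel_epi ((F.commShiftIso m).hom.app D), h2, comp_zero]

end Auto

section Tau

variable {T : Type u} [Category.{v} T] [Preadditive T] [HasZeroObject T] [HasShift T ℤ]
  [∀ n : ℤ, (shiftFunctor T n).Additive]

/-- A fully faithful functor which fixes E up to isomorphism permutes the list of the division
summands of E up to isomorphism. -/
theorem exists_iso_mem_map {E : T} (l : List T) (hr : Reg E) (hs : NoShift E)
    (hl : ∀ D ∈ l, Divn D ∧ ¬ IsZero D ∧ Nonempty (Retract D E))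
    (hd : ∀ N : T, (∀ D ∈ l, Orth D N) → Orth E N) (τ : T ⥤ T) [τ.Full] [τ.Faithful]
    [τ.Additive] [τ.CommShift ℤ] (e : Nonempty (τ.obj E ≅ E)) {D : T} (hD : D ∈ l) :
    ∃ D' ∈ l, Nonempty (τ.obj D ≅ D') := by
  obtain ⟨h1, h2, ⟨r⟩⟩ := hl D hD
  obtain ⟨e⟩ := e
  refine exists_iso_mem l hr hs (fun D hD => ⟨(hl D hD).1, (hl D hD).2.2⟩) hd ?_ (h1.map τ)
    ((r.map τ).trans (Retract.ofIso e))
  intro h0
  apply h2
  rw [IsZero.iff_id_eq_zero] at h0 ⊢
  apply τ.map_injective
  rw [CategoryTheory.Functor.map_id, h0, CategoryTheory.Functor.map_zero]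

end Tau

end OrlNum
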