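import Pool.Agent.Work.MP_a6e60d_ag.Num.Add

/-!
MP_a6e60d_ag, abstract part of Theorem B, 2: a semi-exceptional collection in an idempotent
complete triangulated category is refined to a semiorthogonal list of division objects.
-/

open CategoryTheory Category Limits Pretriangulated Module ZeroObject

set_option linter.unusedSectionVars false

attribute [-instance] CategoryTheory.catToReflQuiver

namespace OrlNum

universe a w v u

section Reg

variable {T : Type u} [Category.{v} T]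

/-- von Neumann regular endomorphisms -/
def Reg (E : T) : Prop := ∀ f : E ⟶ E, ∃ g : E ⟶ E, f ≫ g ≫ f = f

theorem Reg.retracts {E X Y : T} (hE : Reg E) (p : Retract X E) (q : Retract Y E) (f : X ⟶ Y) :
    ∃ g : Y ⟶ X, f ≫ g ≫ f = f := by
  obtain ⟨b, hb⟩ := hE (p.r ≫ f ≫ q.i)
  refine ⟨q.i ≫ b ≫ p.r, ?_⟩
  have h := congrArg (fun x => p.i ≫ x ≫ q.r) hb
  simpa [reassoc_of% p.retract, q.retract] using h

theorem Reg.of_retract {E X : T} (hE : Reg E) (p : Retract X E) : Reg X :=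
  fun f => hE.retracts p p f

/-- A semisimple endomorphism ring is von Neumann regular. -/
theorem reg_of_semisimple [Preadditive T] {E : T} (h : IsSemisimpleRing (End E)) : Reg E := by
  intro f
  let a : End E := f
  obtain ⟨J, hJ⟩ := exists_isCompl (Ideal.span {a} : Ideal (End E))
  have h1 : (1 : End E) ∈ (Ideal.span {a} ⊔ J : Ideal (End E)) := by
    rw [hJ.sup_eq_top]
    trivial
  obtain ⟨e, he, j, hj, hej⟩ := Submodule.mem_sup.mp h1
  obtain ⟨b, rfl⟩ := Ideal.mem_span_singleton'.mp he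
  refine ⟨b, ?_⟩
  have h2 : a * j = a - a * (b * a) := by
    rw [eq_sub_iff_add_eq, ← mul_add, add_comm, hej, mul_one]
  have h3 : a * j ∈ J := J.mul_mem_left _ hj
  have h4 : a * j ∈ Ideal.span {a} := by
    rw [h2, ← mul_assoc]
    refine Ideal.sub_mem _ (Ideal.mem_span_singleton_self a) ?_
    exact Ideal.mul_mem_left _ _ (Ideal.mem_span_singleton_self a)
  have h5 : a * j = 0 := by
    have := hJ.inf_eq_bot
    have h6 : a * j ∈ (Ideal.span {a} ⊓ J : Ideal (End E)) := ⟨h4, h3⟩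
    rw [this] at h6
    simpa using h6
  rw [h5] at h2
  have h7 : a * (b * a) = a := (sub_eq_zero.mp h2.symm).symm
  have h8 : (f ≫ b) ≫ f = f := h7
  rw [← assoc]
  exact h8

end Reg

section Split

variable (k : Type w) [Field k] {T : Type u} [Category.{v} T] [Preadditive T] [Linear k T]
  [∀ X Y : T, Module.Finite k (X ⟶ Y)]

theorem finrank_end_lt {E X : T} (i : X ⟶ E) (e : E ⟶ X) (h : i ≫ e = 𝟙 X)
    (hn : ∃ b : E ⟶ E, ∀ a : X ⟶ X, e ≫ a ≫ i ≠ b) :
    finrank k (X ⟶ X) < finrank k (E ⟶ E) := by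
  let φ : (X ⟶ X) →ₗ[k] (E ⟶ E) :=
    (Linear.leftComp k E e).comp (Linear.rightComp k X i)
  have hφ : ∀ a, φ a = e ≫ a ≫ i := fun a => rfl
  have hinj : Function.Injective φ := by
    intro a b hab
    rw [hφ, hφ] at hab
    have := congrArg (fun x => i ≫ x ≫ e) hab
    simpa [reassoc_of% h, h] using this
  have h1 : LinearMap.range φ < ⊤ := by
    rw [lt_top_iff_ne_top]
    intro htop
    obtain ⟨b, hb⟩ := hn
    obtain ⟨a, ha⟩ := LinearMap.range_eq_top.mp htop b
    exact hb a (by rw [← hφ, ha])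
  rw [← LinearMap.finrank_range_of_inj hinj]
  exact Submodule.finrank_lt h1.ne

variable [IsIdempotentComplete T]

include k in
/-- a nonzero object with regular endomorphism ring has a nonzero retract with division
endomorphism ring -/
theorem exists_divn_retract (E : T) (hE : ¬ IsZero E) (hr : Reg E) :
    ∃ (D : T) (_ : Retract D E), ¬ IsZero D ∧ ∀ f : D ⟶ D, f ≠ 0 → IsIso f := by
  induction h : finrank k (E ⟶ E) using Nat.strong_induction_on generalizing E with
  | _ d ih =>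
    by_cases hall : ∀ f : E ⟶ E, f ≠ 0 → IsIso f
    · exact ⟨E, Retract.refl E, hE, hall⟩
    · push Not at hall
      obtain ⟨f, hf, hni⟩ := hall
      obtain ⟨g, hg⟩ := hr f
      have key : ∃ p : E ⟶ E, p ≫ p = p ∧ p ≠ 0 ∧ p ≠ 𝟙 E := by
        by_cases h1 : f ≫ g = 𝟙 E
        · refine ⟨g ≫ f, by rw [assoc, reassoc_of% h1], ?_, ?_⟩
          · intro h0
            apply hf
            rw [← hg, h0, comp_zero]
          · intro h2
            exact hni ⟨g, h1, h2⟩
        · refine ⟨f ≫ g, by rw [assoc, ← assoc g f g, ← assoc f, hg], ?_, h1⟩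
          intro h0
          apply hf
          rw [← hg, ← assoc, h0, zero_comp]
      obtain ⟨p, hp, hp0, hp1⟩ := key
      obtain ⟨X, i, e, hie, hei⟩ := IsIdempotentComplete.idempotents_split E p hp
      have hX : ¬ IsZero X := by
        intro h0
        apply hp0
        rw [← hei, h0.eq_zero_of_src i, comp_zero]
      have hlt : finrank k (X ⟶ X) < finrank k (E ⟶ E) := by
        refine finrank_end_lt k i e hie ⟨𝟙 E, fun a ha => hp1 ?_⟩
        calc p = p ≫ 𝟙 E := (comp_id p).symm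
          _ = (e ≫ i) ≫ e ≫ a ≫ i := by rw [hei, ha]
          _ = e ≫ a ≫ i := by rw [assoc, reassoc_of% hie]
          _ = 𝟙 E := ha
      let R : Retract X E := ⟨i, e, hie⟩
      obtain ⟨D, r, hD⟩ := ih _ (h ▸ hlt) X hX (hr.of_retract R) rfl
      exact ⟨D, r.trans R, hD⟩

end Split

section Orth

variable {T : Type u} [Category.{v} T] [Preadditive T] [HasZeroObject T] [HasShift T ℤ]
  [∀ n : ℤ, (shiftFunctor T n).Additive]

theorem Orth.retract {X Y X' Y' : T} (h : Orth X Y) (p : Retract X' X) (q : Retract Y' Y) :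
    Orth X' Y' := by
  intro m f
  have h1 : (p.r⟦m⟧') ≫ f ≫ q.i = 0 := h m _
  have h2 : p.i⟦m⟧' ≫ p.r⟦m⟧' = 𝟙 _ := by rw [← Functor.map_comp, p.retract, CategoryTheory.Functor.map_id]
  calc f = (p.i⟦m⟧' ≫ p.r⟦m⟧') ≫ f ≫ q.i ≫ q.r := by rw [h2, q.retract, comp_id, id_comp]
    _ = p.i⟦m⟧' ≫ (p.r⟦m⟧' ≫ f ≫ q.i) ≫ q.r := by simp only [assoc]
    _ = 0 := by rw [h1, zero_comp, comp_zero]

theorem orth_of_isZero {X : T} (h : IsZero X) (N : T) : Orth X N := fun m f =>
  ((shiftFunctor T m).map_isZero h).eq_zero_of_src f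

theorem orth_of_iso {X Y : T} (e : X ≅ Y) {N : T} (h : Orth X N) : Orth Y N :=
  h.retract (Retract.ofIso e.symm) (Retract.refl N)

theorem orth_of_iso' {X Y : T} (e : X ≅ Y) {N : T} (h : Orth N X) : Orth N Y :=
  h.retract (Retract.refl N) (Retract.ofIso e.symm)

/-- vanishing of shifted endomorphisms -/
def NoShift (E : T) : Prop := ∀ m : ℤ, m ≠ 0 → ∀ f : E⟦m⟧ ⟶ E, f = 0

theorem NoShift.retracts {E X Y : T} (h : NoShift E) (p : Retract X E) (q : Retract Y E)
    (m : ℤ) (hm : m ≠ 0) (f : X⟦m⟧ ⟶ Y) : f = 0 := by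
  have h1 : (p.r⟦m⟧') ≫ f ≫ q.i = 0 := h m hm _
  have h2 : p.i⟦m⟧' ≫ p.r⟦m⟧' = 𝟙 _ := by rw [← Functor.map_comp, p.retract, CategoryTheory.Functor.map_id]
  calc f = (p.i⟦m⟧' ≫ p.r⟦m⟧') ≫ f ≫ q.i ≫ q.r := by rw [h2, q.retract, comp_id, id_comp]
    _ = p.i⟦m⟧' ≫ (p.r⟦m⟧' ≫ f ≫ q.i) ≫ q.r := by simp only [assoc]
    _ = 0 := by rw [h1, zero_comp, comp_zero]

theorem noShift_of_target {E : T} (h : ∀ m : ℤ, m ≠ 0 → ∀ f : E ⟶ E⟦m⟧, f = 0) : NoShift E := by
  intro m hm f
  have h1 : (shiftFunctorCompIsoId T m (-m) (by ring)).inv.app E ≫ f⟦-m⟧' = 0 :=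
    h (-m) (neg_ne_zero.mpr hm) _
  have h2 : f⟦-m⟧' = 0 := by
    rw [← cancel_epi ((shiftFunctorCompIsoId T m (-m) (by ring)).inv.app E), h1, comp_zero]
  exact (shiftFunctor T (-m)).map_eq_zero_iff.mp h2

theorem orth_of_target {X Y : T} (h : ∀ (m : ℤ) (f : X ⟶ Y⟦m⟧), f = 0) : Orth X Y := by
  intro m f
  have h1 : (shiftFunctorCompIsoId T m (-m) (by ring)).inv.app X ≫ f⟦-m⟧' = 0 := h (-m) _
  have h2 : f⟦-m⟧' = 0 := by
    rw [← cancel_epi ((shiftFunctorCompIsoId T m (-m) (by ring)).inv.app X), h1, comp_zero]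
  exact (shiftFunctor T (-m)).map_eq_zero_iff.mp h2

/-- two nonzero division retracts of an object with regular endomorphism ring are isomorphic or
orthogonal -/
theorem iso_or_orth {E X Y : T} (hr : Reg E) (hs : NoShift E) (p : Retract X E)
    (q : Retract Y E) (hX : ∀ f : X ⟶ X, f ≠ 0 → IsIso f) (hY : ∀ f : Y ⟶ Y, f ≠ 0 → IsIso f) :
    Nonempty (X ≅ Y) ∨ Orth X Y := by
  by_cases h : ∃ f : X ⟶ Y, f ≠ 0
  · left
    obtain ⟨f, hf⟩ := h
    obtain ⟨g, hg⟩ := hr.retracts p q f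
    have h1 : f ≫ g ≠ 0 := by
      intro h0
      apply hf
      rw [← hg, ← assoc, h0, zero_comp]
    have h2 : g ≫ f ≠ 0 := by
      intro h0
      apply hf
      rw [← hg, h0, comp_zero]
    have := hX _ h1
    have := hY _ h2
    have h3 : IsSplitMono f := IsSplitMono.mk' ⟨g ≫ inv (f ≫ g), by
      rw [← assoc, IsIso.hom_inv_id]⟩
    have h4 : IsSplitEpi f := IsSplitEpi.mk' ⟨inv (g ≫ f) ≫ g, by
      rw [assoc, IsIso.inv_hom_id]⟩
    have : IsIso f := isIso_of_mono_of_isSplitEpi f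
    exact ⟨asIso f⟩
  · right
    push Not at h
    intro m f
    by_cases hm : m = 0
    · subst hm
      have h1 := h ((shiftFunctorZero T ℤ).inv.app X ≫ f)
      rw [← cancel_epi ((shiftFunctorZero T ℤ).inv.app X), comp_zero]
      exact h1
    · exact hs.retracts p q m hm f

end Orth

section Main

variable (k : Type w) [Field k] {T : Type u} [Category.{v} T] [Preadditive T] [HasZeroObject T]
  [HasShift T ℤ] [∀ n : ℤ, (shiftFunctor T n).Additive] [Pretriangulated T] [Linear k T]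
  [HomFin k T] [IsIdempotentComplete T]

include k

/-- The division summands of an object with semisimple endomorphism ring and no shifted
endomorphisms. -/
theorem exists_list (E : T) (hr : Reg E) (hs : NoShift E) :
    ∃ l : List T, (∀ D ∈ l, Divn D ∧ ¬ IsZero D ∧ Nonempty (Retract D E)) ∧
      l.Pairwise (fun X Y => Orth X Y ∧ Orth Y X) ∧
      ∀ N : T, (∀ D ∈ l, Orth D N) → Orth E N := by
  induction h : finrank k (E ⟶ E) using Nat.strong_induction_on generalizing E with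
  | _ d ih =>
    by_cases hE : IsZero E
    · exact ⟨[], by simp, List.Pairwise.nil, fun N _ => orth_of_isZero hE N⟩
    obtain ⟨D, R, hD0, hD⟩ := exists_divn_retract k E hE hr
    have hp : (𝟙 E - R.r ≫ R.i) ≫ (𝟙 E - R.r ≫ R.i) = 𝟙 E - R.r ≫ R.i := by
      simp [reassoc_of% R.retract]
    obtain ⟨E₁, i, e, hie, hei⟩ := IsIdempotentComplete.idempotents_split E _ hp
    let R₁ : Retract E₁ E := ⟨i, e, hie⟩
    have hDe : R.i ≫ e = 0 := by
      have h1 : R.i ≫ e ≫ i = 0 := by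
        rw [hei]
        simp [reassoc_of% R.retract]
      calc R.i ≫ e = (R.i ≫ e ≫ i) ≫ e := by rw [assoc, assoc, hie, comp_id]
        _ = 0 := by rw [h1, zero_comp]
    have hlt : finrank k (E₁ ⟶ E₁) < finrank k (E ⟶ E) := by
      refine finrank_end_lt k i e hie ⟨R.r ≫ R.i, fun b hb => hD0 ?_⟩
      rw [IsZero.iff_id_eq_zero]
      calc 𝟙 D = R.i ≫ (R.r ≫ R.i) ≫ R.r := by simp [R.retract]
        _ = R.i ≫ (e ≫ b ≫ i) ≫ R.r := by rw [hb]
        _ = (R.i ≫ e) ≫ b ≫ i ≫ R.r := by simp only [assoc]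
        _ = 0 := by rw [hDe, zero_comp]
    have hDd : Divn D := ⟨hD, fun m hm f => hs.retracts R R m hm f⟩
    have hr₁ := hr.of_retract R₁
    have hs₁ : NoShift E₁ := fun m hm f => hs.retracts R₁ R₁ m hm f
    obtain ⟨l, h1, h2, h3⟩ := ih _ (h ▸ hlt) E₁ hr₁ hs₁ rfl
    have hcomb : ∀ N : T, Orth D N → Orth E₁ N → Orth E N := by
      intro N hDN hEN m f
      have hsum : 𝟙 E = R.r ≫ R.i + e ≫ i := by rw [hei]; abel
      have h4 : (𝟙 E : E ⟶ E)⟦m⟧' = R.r⟦m⟧' ≫ R.i⟦m⟧' + e⟦m⟧' ≫ i⟦m⟧' := by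
        rw [← Functor.map_comp, ← Functor.map_comp, ← Functor.map_add, ← hsum]
      calc f = (𝟙 E : E ⟶ E)⟦m⟧' ≫ f := by rw [CategoryTheory.Functor.map_id, id_comp]
        _ = R.r⟦m⟧' ≫ (R.i⟦m⟧' ≫ f) + e⟦m⟧' ≫ (i⟦m⟧' ≫ f) := by
          rw [h4, Preadditive.add_comp, assoc, assoc]
        _ = 0 := by rw [hDN m (R.i⟦m⟧' ≫ f), hEN m (i⟦m⟧' ≫ f), comp_zero, comp_zero, add_zero]
    have h1' : ∀ D' ∈ l, Divn D' ∧ ¬ IsZero D' ∧ Nonempty (Retract D' E) := fun D' hD' =>
      ⟨(h1 D' hD').1, (h1 D' hD').2.1, (h1 D' hD').2.2.map fun r => r.trans R₁⟩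
    by_cases hex : ∃ D' ∈ l, Nonempty (D ≅ D')
    · obtain ⟨D', hD', ⟨φ⟩⟩ := hex
      refine ⟨l, h1', h2, fun N hN => hcomb N ?_ (h3 N hN)⟩
      exact orth_of_iso φ.symm (hN D' hD')
    · push Not at hex
      refine ⟨D :: l, ?_, ?_, fun N hN => hcomb N (hN D (by simp)) (h3 N fun D' hD' =>
        hN D' (by simp [hD']))⟩
      · intro D' hD'
        rcases List.mem_cons.mp hD' with rfl | hD'
        · exact ⟨hDd, hD0, ⟨R⟩⟩
        · exact h1' D' hD'
      · rw [List.pairwise_cons]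
        refine ⟨fun D' hD' => ?_, h2⟩
        obtain ⟨hd', h0', ⟨r'⟩⟩ := h1' D' hD'
        constructor
        · exact (iso_or_orth hr hs R r' hD hd'.iso).resolve_left (not_nonempty_iff.mpr
            (hex D' hD'))
        · refine (iso_or_orth hr hs r' R hd'.iso hD).resolve_left ?_
          rintro ⟨φ⟩
          exact (hex D' hD').false φ.symm

/-- The refinement of a semi-exceptional collection (in reversed order). -/
theorem exists_list_of_collection (Es : List T) (hr : ∀ E ∈ Es, Reg E) (hs : ∀ E ∈ Es, NoShift E)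
    (hp : Es.Pairwise Orth) :
    ∃ l : List T, (∀ D ∈ l, Divn D ∧ ¬ IsZero D ∧ ∃ E ∈ Es, Nonempty (Retract D E)) ∧
      l.Pairwise Orth ∧ ∀ N : T, (∀ D ∈ l, Orth D N) → ∀ E ∈ Es, Orth E N := by
  induction Es with
  | nil => exact ⟨[], by simp, List.Pairwise.nil, by simp⟩
  | cons E Es ih =>
    rw [List.pairwise_cons] at hp
    obtain ⟨l, h1, h2, h3⟩ := ih (fun E hE => hr E (by simp [hE])) (fun E hE => hs E (by simp [hE]))
      hp.2
    obtain ⟨l', h1', h2', h3'⟩ := exists_list k E (hr E (by simp)) (hs E (by simp))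
    refine ⟨l' ++ l, ?_, ?_, ?_⟩
    · intro D hD
      rcases List.mem_append.mp hD with hD | hD
      · obtain ⟨h4, h5, h6⟩ := h1' D hD
        exact ⟨h4, h5, E, by simp, h6⟩
      · obtain ⟨h4, h5, E', h6, h7⟩ := h1 D hD
        exact ⟨h4, h5, E', by simp [h6], h7⟩
    · rw [List.pairwise_append]
      refine ⟨h2'.imp fun h => h.1, h2, fun X hX Y hY => ?_⟩
      obtain ⟨-, -, ⟨r⟩⟩ := h1' X hX
      obtain ⟨-, -, E', hE', ⟨r'⟩⟩ := h1 Y hY
      exact (hp.1 E' hE').retract r r'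
    · intro N hN E' hE'
      rcases List.mem_cons.mp hE' with rfl | hE'
      · exact h3' N fun D hD => hN D (by simp [hD])
      · exact h3 N (fun D hD => hN D (by simp [hD])) E' hE'

end Main

end OrlNum
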